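import Pool.Agent.Lib.MP_a31e1e_gt.CWDefs

/-!
# Module CWBDRY of project TIGHT: boundaries of the cells lie in lower closed cells
-/

open scoped ContDiff Manifold Topology RealInnerProductSpace
open Set Metric

namespace Pool.Agent.Tight.H99

theorem lift_congr {x y : E3} {w w' : ℝ} (h0 : x 0 = y 0) (h1 : x 1 = y 1) (hw : w = w') :
    lift x w = lift y w' := by
  simp only [lift, h0, h1, hw]

theorem nn_congr {x y : E3} (h0 : x 0 = y 0) (h1 : x 1 = y 1) : nn x = nn y := by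
  simp only [nn, h0, h1]

theorem tt_congr {x y : E3} (h0 : x 0 = y 0) (h1 : x 1 = y 1) : tt x = tt y := by
  simp only [tt, nn, cc, h0, h1]

theorem qq_congr {x y : E3} (h0 : x 0 = y 0) (h1 : x 1 = y 1) : qq x = qq y := by
  simp only [qq, nn_congr h0 h1, tt_congr h0 h1]

theorem qo_congr {x y : E3} (h0 : x 0 = y 0) (h1 : x 1 = y 1) : qo x = qo y := by
  simp only [qo, nn_congr h0 h1, tt_congr h0 h1]

theorem onSheet_congr (i : Fin 4) {x y : E3} (h0 : x 0 = y 0) (h1 : x 1 = y 1) :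
    onSheet i x = onSheet i y := by
  unfold onSheet
  apply lift_congr h0 h1
  fin_cases i <;> simp only [sheet, qq_congr h0 h1, qo_congr h0 h1]

theorem pl0 (x y : ℝ) : pl x y 0 = x := rfl
theorem pl1 (x y : ℝ) : pl x y 1 = y := rfl

theorem smul0 (τ : ℝ) (x : E3) (i : Fin 3) : (τ • x) i = τ * x i := rfl

theorem ev0 (j : Fin 3) : ev j 0 = (match j with | 0 => 0 | 1 => -√3 / 2 | 2 => √3 / 2) := by
  fin_cases j <;> rfl
theorem ev1 (j : Fin 3) : ev j 1 = (match j with | 0 => 1 | 1 => -1 / 2 | 2 => -1 / 2) := by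
  fin_cases j <;> rfl

theorem s3 : √3 * √3 = (3 : ℝ) := Real.mul_self_sqrt (by norm_num)
theorem s3' : √3 ^ 2 = (3 : ℝ) := Real.sq_sqrt (by norm_num)

theorem ell_ev_self (j : Fin 3) (τ : ℝ) : ell j (τ • ev j) = 1 - τ := by
  have := s3
  fin_cases j <;> simp only [ell, ev0, ev1, smul0]
  · ring
  · linear_combination (-τ / 4) * this
  · linear_combination (-τ / 4) * this

theorem ell_ev_add1 (j : Fin 3) (τ : ℝ) : ell (j + 1) (τ • ev j) = 1 + τ / 2 := by
  have := s3
  fin_cases j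
  · show 1 + ((τ • ev 0) 1 + √3 * (τ • ev 0) 0) / 2 = 1 + τ / 2
    simp only [ev0, ev1, smul0]; nlinarith
  · show 1 + ((τ • ev 1) 1 - √3 * (τ • ev 1) 0) / 2 = 1 + τ / 2
    simp only [ev0, ev1, smul0]; linear_combination (τ / 4) * this
  · show 1 - (τ • ev 2) 1 = 1 + τ / 2
    simp only [ev1, smul0]; nlinarith

theorem ell_ev_add2 (j : Fin 3) (τ : ℝ) : ell (j + 2) (τ • ev j) = 1 + τ / 2 := by
  have := s3
  fin_cases j
  · show 1 + ((τ • ev 0) 1 - √3 * (τ • ev 0) 0) / 2 = 1 + τ / 2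
    simp only [ev0, ev1, smul0]; nlinarith
  · show 1 - (τ • ev 1) 1 = 1 + τ / 2
    simp only [ev1, smul0]; nlinarith
  · show 1 + ((τ • ev 2) 1 + √3 * (τ • ev 2) 0) / 2 = 1 + τ / 2
    simp only [ev0, ev1, smul0]; linear_combination (τ / 4) * this

theorem nn_ev (j : Fin 3) (τ : ℝ) : nn (τ • ev j) = τ ^ 2 := by
  have := s3
  fin_cases j <;> simp only [nn, ev0, ev1, smul0] <;> ring_nf <;> nlinarith [s3']

theorem tt_ev (j : Fin 3) : tt (ev j) = 0 := by
  have := s3
  have h2 := s3'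
  have h3 : √3 ^ 3 = 3 * √3 := by rw [pow_succ, s3']
  fin_cases j <;> simp only [tt, cc, nn, ev0, ev1] <;> ring_nf <;> nlinarith

theorem qq_ev (j : Fin 3) : qq (ev j) = 6 := by
  have h := nn_ev j 1
  rw [one_smul] at h
  simp only [qq, tt_ev, h, Real.sqrt_zero]
  norm_num

theorem qo_ev (j : Fin 3) : qo (ev j) = 6 := by
  have h := nn_ev j 1
  rw [one_smul] at h
  simp only [qo, tt_ev, h, Real.sqrt_zero]
  norm_num

/-- index facts in `Fin 3` -/
theorem fin3_cases (k j : Fin 3) : j = k ∨ j = k + 1 ∨ j = k + 2 := by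
  revert k j; decide

theorem fin3_a (k : Fin 3) : k + 2 + 1 = k := by revert k; decide
theorem fin3_b (k : Fin 3) : k + 2 + 2 = k + 1 := by revert k; decide
theorem fin3_c (k : Fin 3) : k + 1 + 1 = k + 2 := by revert k; decide
theorem fin3_d (k : Fin 3) : k + 1 + 2 = k := by revert k; decide

/-- the far end of a ray of the kite lies on one of the two segments -/
theorem far_seg (hK : KiteStatement) (k : Fin 3) (β : ℝ) (h0 : 0 ≤ β) (h1 : β ≤ 1) :
    ∃ (j : Fin 3) (τ : ℝ), 0 ≤ τ ∧ τ ≤ 1 ∧ (kp k β (far β)) 0 = (τ • ev j) 0 ∧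
      (kp k β (far β)) 1 = (τ • ev j) 1 := by
  obtain ⟨hk1, -, -, -, -, -, hk7⟩ := hK
  rcases le_total (1 / 2) β with hb | hb
  · have hf : far β = 3 / (1 + β) := by
      unfold far
      rw [max_eq_left (by linarith)]
    have hpos : (0:ℝ) < 1 + β := by linarith
    refine ⟨k + 2, (4 * β - 2) / (1 + β), div_nonneg (by linarith) hpos.le, ?_, ?_⟩
    · rw [div_le_one hpos]; linarith
    · apply hk7
      intro j
      obtain ⟨e1, e2, e3⟩ := hk1 k β (far β)
      rcases fin3_cases k j with h | h | h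
      · subst h
        rw [e1]
        have := ell_ev_add1 (j + 2) ((4 * β - 2) / (1 + β))
        rw [fin3_a] at this
        rw [this, hf]
        field_simp
        ring
      · subst h
        rw [e2]
        have := ell_ev_add2 (k + 2) ((4 * β - 2) / (1 + β))
        rw [fin3_b] at this
        rw [this, hf]
        field_simp
        ring
      · subst h
        rw [e3, ell_ev_self, hf]
        field_simp
        ring
  · have hf : far β = 3 / (2 - β) := by
      unfold far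
      rw [max_eq_right (by linarith)]
      ring
    have hpos : (0:ℝ) < 2 - β := by linarith
    refine ⟨k + 1, (2 - 4 * β) / (2 - β), div_nonneg (by linarith) hpos.le, ?_, ?_⟩
    · rw [div_le_one hpos]; linarith
    · apply hk7
      intro j
      obtain ⟨e1, e2, e3⟩ := hk1 k β (far β)
      rcases fin3_cases k j with h | h | h
      · subst h
        rw [e1]
        have := ell_ev_add2 (j + 1) ((2 - 4 * β) / (2 - β))
        rw [fin3_d] at this
        rw [this, hf]
        field_simp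
        ring
      · subst h
        rw [e2, ell_ev_self, hf]
        field_simp
        ring
      · subst h
        rw [e3]
        have := ell_ev_add1 (k + 1) ((2 - 4 * β) / (2 - β))
        rw [fin3_c] at this
        rw [this, hf]
        field_simp
        ring

/-- the ends with `β = 0, 1` -/
theorem far_end0 (hK : KiteStatement) (k : Fin 3) :
    (kp k 0 (far 0)) 0 = (ev (k + 1)) 0 ∧ (kp k 0 (far 0)) 1 = (ev (k + 1)) 1 := by
  obtain ⟨hk1, -, -, -, -, -, hk7⟩ := hK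
  have hf : far 0 = 3 / 2 := by unfold far; norm_num
  apply hk7
  intro j
  obtain ⟨e1, e2, e3⟩ := hk1 k 0 (far 0)
  rcases fin3_cases k j with h | h | h
  · subst h
    rw [e1]
    have := ell_ev_add2 (j + 1) 1
    rw [fin3_d, one_smul] at this
    rw [this, hf]; norm_num
  · subst h
    have := ell_ev_self (k + 1) 1
    rw [one_smul] at this
    rw [e2, this]; norm_num
  · subst h
    rw [e3]
    have := ell_ev_add1 (k + 1) 1
    rw [fin3_c, one_smul] at this
    rw [this, hf]; norm_num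

theorem far_end1 (hK : KiteStatement) (k : Fin 3) :
    (kp k 1 (far 1)) 0 = (ev (k + 2)) 0 ∧ (kp k 1 (far 1)) 1 = (ev (k + 2)) 1 := by
  obtain ⟨hk1, -, -, -, -, -, hk7⟩ := hK
  have hf : far 1 = 3 / 2 := by unfold far; norm_num
  apply hk7
  intro j
  obtain ⟨e1, e2, e3⟩ := hk1 k 1 (far 1)
  rcases fin3_cases k j with h | h | h
  · subst h
    rw [e1]
    have := ell_ev_add1 (j + 2) 1
    rw [fin3_a, one_smul] at this
    rw [this, hf]; norm_num
  · subst h
    rw [e2]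
    have := ell_ev_add2 (k + 2) 1
    rw [fin3_b, one_smul] at this
    rw [this, hf]; norm_num
  · subst h
    have := ell_ev_self (k + 2) 1
    rw [one_smul] at this
    rw [e3, this]; norm_num

/-- the union of the closed cells of dimension `< n` -/
def Low (ρ l : ℝ) (n : ℕ) : Set (E3 × ℂ) :=
  ⋃ (m < n) (j : CI m), CPhi ρ l m j '' closedBall 0 1

theorem mem_low {ρ l : ℝ} {n m : ℕ} (hm : m < n) (j : CI m) {y : Fin m → ℝ}
    (hy : y ∈ closedBall (0 : Fin m → ℝ) 1) : CPhi ρ l m j y ∈ Low ρ l n := by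
  simp only [Low, mem_iUnion]
  exact ⟨m, hm, j, y, hy, rfl⟩

theorem cb0 (y : Fin 0 → ℝ) : y ∈ closedBall (0 : Fin 0 → ℝ) 1 := by
  have : y = 0 := Subsingleton.elim _ _
  rw [this]
  exact mem_closedBall_self zero_le_one

theorem cb1 {s : ℝ} (h1 : -1 ≤ s) (h2 : s ≤ 1) :
    (fun _ => s) ∈ closedBall (0 : Fin 1 → ℝ) 1 := by
  rw [mem_closedBall_zero_iff, pi_norm_le_iff_of_nonneg zero_le_one]
  intro _
  rw [Real.norm_eq_abs]
  exact abs_le.2 ⟨h1, h2⟩

theorem low_mono {ρ l : ℝ} {z : E3 × ℂ} (h : z ∈ Low ρ l 1) : z ∈ Low ρ l 2 := by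
  simp only [Low, mem_iUnion] at h ⊢
  obtain ⟨m, hm, r⟩ := h
  exact ⟨m, by omega, r⟩

/-- vertices -/
theorem vert_c (ρ l : ℝ) (i : Fin 3) : onSheet i.castSucc (pl 0 0) ∈ Low ρ l 1 :=
  mem_low (ρ := ρ) (l := l) zero_lt_one (Sum.inl i : CI 0) (cb0 0)

theorem vert_e (ρ l : ℝ) (j : Fin 3) (b : Bool) : onSheet (if b then 0 else 1) (ev j) ∈ Low ρ l 1 :=
  mem_low (ρ := ρ) (l := l) zero_lt_one (Sum.inr (Sum.inl (j, b)) : CI 0) (cb0 0)

theorem vert_f (ρ l : ℝ) (i : Fin 5) : circ ρ (ang i.castSucc) ∈ Low ρ l 1 :=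
  mem_low (ρ := ρ) (l := l) zero_lt_one (Sum.inr (Sum.inr i) : CI 0) (cb0 0)

theorem vert_e0 (ρ l : ℝ) (j : Fin 3) : onSheet 0 (ev j) ∈ Low ρ l 1 := vert_e ρ l j true
theorem vert_e1 (ρ l : ℝ) (j : Fin 3) : onSheet 1 (ev j) ∈ Low ρ l 1 := vert_e ρ l j false
theorem vert_e2 (ρ l : ℝ) (j : Fin 3) : onSheet 2 (ev j) ∈ Low ρ l 1 := by
  have : onSheet 2 (ev j) = onSheet 0 (ev j) := by
    simp only [onSheet, sheet, qq_ev, qo_ev]
  rw [this]
  exact vert_e0 ρ l j
theorem vert_e3 (ρ l : ℝ) (j : Fin 3) : onSheet 3 (ev j) ∈ Low ρ l 1 := by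
  have : onSheet 3 (ev j) = onSheet 1 (ev j) := by
    simp only [onSheet, sheet, qq_ev, qo_ev]
  rw [this]
  exact vert_e1 ρ l j

theorem vert_all (ρ l : ℝ) (i : Fin 4) (j : Fin 3) : onSheet i (ev j) ∈ Low ρ l 1 := by
  fin_cases i
  exacts [vert_e0 ρ l j, vert_e1 ρ l j, vert_e2 ρ l j, vert_e3 ρ l j]

/-- vertices on the circle below the midpoints of the sides -/
theorem vert_m (ρ l : ℝ) (j : Fin 3) : onSheet 3 ((2 * ρ) • ev j) ∈ Low ρ l 1 := by
  have h7c : Real.cos (7 * Real.pi / 6) = -√3 / 2 := by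
    rw [show 7 * Real.pi / 6 = Real.pi / 6 + Real.pi by ring, Real.cos_add_pi, Real.cos_pi_div_six]
    ring
  have h7s : Real.sin (7 * Real.pi / 6) = -1 / 2 := by
    rw [show 7 * Real.pi / 6 = Real.pi / 6 + Real.pi by ring, Real.sin_add_pi, Real.sin_pi_div_six]
    ring
  have h11c : Real.cos (11 * Real.pi / 6) = √3 / 2 := by
    rw [show 11 * Real.pi / 6 = -(Real.pi / 6) + 2 * Real.pi by ring, Real.cos_add_two_pi,
      Real.cos_neg, Real.cos_pi_div_six]
  have h11s : Real.sin (11 * Real.pi / 6) = -1 / 2 := by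
    rw [show 11 * Real.pi / 6 = -(Real.pi / 6) + 2 * Real.pi by ring, Real.sin_add_two_pi,
      Real.sin_neg, Real.sin_pi_div_six]
    ring
  fin_cases j
  · have := vert_f ρ l 1
    have h2 : circ ρ (ang (Fin.castSucc 1)) = onSheet 3 ((2 * ρ) • ev 0) := by
      show circ ρ (Real.pi / 2) = _
      unfold circ
      apply onSheet_congr
      · simp [pl0, ev0]
      · simp [pl1, ev1]
    rw [h2] at this
    exact this
  · have := vert_f ρ l 3
    have h2 : circ ρ (ang (Fin.castSucc 3)) = onSheet 3 ((2 * ρ) • ev 1) := by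
      show circ ρ (7 * Real.pi / 6) = _
      unfold circ
      apply onSheet_congr
      · rw [h7c]; simp [pl0, ev0]
      · rw [h7s]; simp [pl1, ev1]
    rw [h2] at this
    exact this
  · have := vert_f ρ l 4
    have h2 : circ ρ (ang (Fin.castSucc 4)) = onSheet 3 ((2 * ρ) • ev 2) := by
      show circ ρ (11 * Real.pi / 6) = _
      unfold circ
      apply onSheet_congr
      · rw [h11c]; simp [pl0, ev0]
      · rw [h11s]; simp [pl1, ev1]
    rw [h2] at this
    exact this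

theorem vert_ang (ρ l : ℝ) (i : Fin 6) : circ ρ (ang i) ∈ Low ρ l 1 := by
  fin_cases i
  · exact vert_f ρ l 0
  · exact vert_f ρ l 1
  · exact vert_f ρ l 2
  · exact vert_f ρ l 3
  · exact vert_f ρ l 4
  · have h2 : circ ρ (ang 5) = circ ρ (ang (Fin.castSucc 0)) := by
      show circ ρ (2 * Real.pi) = circ ρ 0
      simp only [circ, Real.cos_two_pi, Real.sin_two_pi, Real.cos_zero, Real.sin_zero]
    have := vert_f ρ l 0
    rw [← h2] at this
    exact this

theorem low_sphere1 {y : Fin 1 → ℝ} (hy : y ∈ sphere (0 : Fin 1 → ℝ) 1) : y 0 = -1 ∨ y 0 = 1 := by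
  rw [mem_sphere_zero_iff_norm] at hy
  have h1 : |y 0| ≤ 1 := by
    have := norm_le_pi_norm y 0
    rw [hy, Real.norm_eq_abs] at this
    exact this
  have h2 : ¬ |y 0| < 1 := by
    intro h
    have : ‖y‖ < 1 := by
      rw [pi_norm_lt_iff zero_lt_one]
      intro i
      have : i = 0 := Subsingleton.elim _ _
      rw [this, Real.norm_eq_abs]
      exact h
    linarith
  have h3 : |y 0| = 1 := le_antisymm h1 (not_lt.1 h2)
  rcases (abs_eq zero_le_one).1 h3 with h | h
  · right; exact h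
  · left; exact h

/-- the four ends of the wedge over `β = 0, 1` -/
theorem wedge_end (hK : KiteStatement) (ρ l : ℝ) (k : Fin 3) (d : Bool) (s : ℝ)
    (hs : s = -1 ∨ s = 1) : wedge ρ true k (if d then 1 else 0) s ∈ Low ρ l 1 := by
  have hq0 : ∀ x : ℝ, qW 1 0 (far 0) = 6 := by
    intro _
    have hf : far 0 = 3 / 2 := by unfold far; norm_num
    rw [hf]
    simp only [qW]
    norm_num
  have hq1 : ∀ x : ℝ, qW 1 1 (far 1) = 6 := by
    intro _
    have hf : far 1 = 3 / 2 := by unfold far; norm_num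
    rw [hf]
    simp only [qW]
    norm_num
  have habs : |s| = 1 := by rcases hs with h | h <;> rw [h] <;> norm_num
  cases d
  · obtain ⟨e0, e1⟩ := far_end0 hK k
    have hw : wedge ρ true k 0 s =
        lift (kp k 0 (far 0)) ((if s < 0 then -1 else 1) * √(qW 1 0 (far 0))) := by
      simp only [wedge, habs]
      simp
    simp only [Bool.false_eq_true, if_false]
    rw [hw, hq0 0]
    rcases hs with h | h
    · have := vert_e1 ρ l (k + 1)
      have h2 : onSheet 1 (ev (k + 1)) =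
          lift (kp k 0 (far 0)) ((if s < 0 then -1 else 1) * √6) := by
        unfold onSheet
        apply lift_congr e0.symm e1.symm
        simp only [sheet, qo_ev, h]
        norm_num
      rw [← h2]
      exact this
    · have := vert_e0 ρ l (k + 1)
      have h2 : onSheet 0 (ev (k + 1)) =
          lift (kp k 0 (far 0)) ((if s < 0 then -1 else 1) * √6) := by
        unfold onSheet
        apply lift_congr e0.symm e1.symm
        simp only [sheet, qo_ev, h]
        norm_num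
      rw [← h2]
      exact this
  · obtain ⟨e0, e1⟩ := far_end1 hK k
    have hw : wedge ρ true k 1 s =
        lift (kp k 1 (far 1)) ((if s < 0 then -1 else 1) * √(qW 1 1 (far 1))) := by
      simp only [wedge, habs]
      simp
    simp only [if_true]
    rw [hw, hq1 0]
    rcases hs with h | h
    · have := vert_e1 ρ l (k + 2)
      have h2 : onSheet 1 (ev (k + 2)) =
          lift (kp k 1 (far 1)) ((if s < 0 then -1 else 1) * √6) := by
        unfold onSheet
        apply lift_congr e0.symm e1.symm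
        simp only [sheet, qo_ev, h]
        norm_num
      rw [← h2]
      exact this
    · have := vert_e0 ρ l (k + 2)
      have h2 : onSheet 0 (ev (k + 2)) =
          lift (kp k 1 (far 1)) ((if s < 0 then -1 else 1) * √6) := by
        unfold onSheet
        apply lift_congr e0.symm e1.symm
        simp only [sheet, qo_ev, h]
        norm_num
      rw [← h2]
      exact this

/-- points of the circle in the floor part -/
theorem floor_circ (ρ l : ℝ) (hP : Par ρ l) (hR : FloorRegStatement) (b : E2)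
    (hb : nn (floorX ρ l b) = 4 * ρ ^ 2) :
    floorP ρ l b = onSheet 3 (pl (l * xiX b) (l * xiY b)) := by
  have hρ := hP.hρ
  obtain ⟨-, -, -, h4, -, -⟩ := hR ρ l hP
  obtain ⟨-, -, h43⟩ := h4 b hb.ge (by rw [hb]; nlinarith [sq_nonneg ρ])
  have hx0 : floorX ρ l b 0 = l * xiX b := rfl
  have hx1 : floorX ρ l b 1 = l * xiY b := rfl
  have hlab : lab ρ l b = 0 := by
    unfold lab
    have : max (ρ ^ 2 / 16 - nn (floorX ρ l b)) 0 = 0 := by
      apply max_eq_right
      rw [hb]; nlinarith [sq_nonneg ρ]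
    rw [this]
    simp
  unfold floorP onSheet lift
  rw [hlab]
  congr 1
  ext i
  fin_cases i
  · rfl
  · rfl
  · show floorX ρ l b 2 = sheet 3 (pl (l * xiX b) (l * xiY b))
    rw [h43]
    simp only [hS, sheet]
    rw [qq_congr (x := floorX ρ l b) (y := pl (l * xiX b) (l * xiY b)) hx0 hx1]

theorem core_end (ρ l : ℝ) (hP : Par ρ l) (hR : FloorRegStatement) (s : ℝ)
    (hs : s = -1 ∨ s = 1) : floorP ρ l !₂[0, -1 + s * (2 * ρ / l)] ∈ Low ρ l 1 := by
  have hl := hP.hl
  have hρ := hP.hρ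
  have hs2 : s ^ 2 = 1 := by rcases hs with h | h <;> rw [h] <;> norm_num
  set b : E2 := !₂[0, -1 + s * (2 * ρ / l)] with hb
  have hb0 : b 0 = 0 := rfl
  have hb1 : b 1 = -1 + s * (2 * ρ / l) := rfl
  have hxi : l * xiX b = 2 * ρ * s := by
    simp only [xiX, hb0, hb1, mul_zero, Real.cos_zero]
    field_simp
    ring
  have hyi : l * xiY b = 0 := by
    simp only [xiY, hb0, mul_zero, Real.sin_zero, sub_zero]
  have hn : nn (floorX ρ l b) = 4 * ρ ^ 2 := by
    show (l * xiX b) ^ 2 + (l * xiY b) ^ 2 = 4 * ρ ^ 2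
    rw [hxi, hyi]
    linear_combination (4 * ρ ^ 2) * hs2
  rw [floor_circ ρ l hP hR b hn, hxi, hyi]
  rcases hs with h | h
  · have h2 : onSheet 3 (pl (2 * ρ * s) 0) = circ ρ (ang 2) := by
      show _ = circ ρ Real.pi
      simp only [circ, Real.cos_pi, Real.sin_pi, h, mul_zero]
    rw [h2]
    exact vert_ang ρ l 2
  · have h2 : onSheet 3 (pl (2 * ρ * s) 0) = circ ρ (ang 0) := by
      show _ = circ ρ 0
      simp only [circ, Real.cos_zero, Real.sin_zero, h, mul_zero]
    rw [h2]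
    exact vert_ang ρ l 0

/-- boundaries of the 1-cells -/
theorem bdry1 (hK : KiteStatement) (hR : FloorRegStatement) (ρ l : ℝ) (hP : Par ρ l) (i : CI 1)
    (y : Fin 1 → ℝ) (hy : y ∈ sphere (0 : Fin 1 → ℝ) 1) : CPhi ρ l 1 i y ∈ Low ρ l 1 := by
  have hy' := low_sphere1 hy
  rcases i with ⟨k, d⟩ | ⟨i, j⟩ | j | i | u
  · exact wedge_end hK ρ l k d (y 0) hy'
  · show onSheet i.castSucc (((1 + y 0) / 2) • ev j) ∈ Low ρ l 1
    rcases hy' with h | h
    · have h2 : onSheet i.castSucc (((1 + y 0) / 2) • ev j) = onSheet i.castSucc (pl 0 0) := by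
        apply onSheet_congr
        · rw [smul0, h, pl0]; norm_num
        · rw [smul0, h, pl1]; norm_num
      rw [h2]
      exact vert_c ρ l i
    · have h2 : ((1 + y 0) / 2) • ev j = ev j := by
        rw [h]; norm_num
      rw [h2]
      exact vert_all ρ l _ j
  · show onSheet 3 ((2 * ρ + (1 - 2 * ρ) * ((1 + y 0) / 2)) • ev j) ∈ Low ρ l 1
    rcases hy' with h | h
    · have h2 : (2 * ρ + (1 - 2 * ρ) * ((1 + y 0) / 2)) = 2 * ρ := by rw [h]; ring
      rw [h2]
      exact vert_m ρ l j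
    · have h2 : (2 * ρ + (1 - 2 * ρ) * ((1 + y 0) / 2)) = 1 := by rw [h]; ring
      rw [h2, one_smul]
      exact vert_all ρ l 3 j
  · show circ ρ (ang i.castSucc + (ang i.succ - ang i.castSucc) * ((1 + y 0) / 2)) ∈ Low ρ l 1
    rcases hy' with h | h
    · have h2 : ang i.castSucc + (ang i.succ - ang i.castSucc) * ((1 + y 0) / 2) =
          ang i.castSucc := by rw [h]; ring
      rw [h2]
      exact vert_ang ρ l _
    · have h2 : ang i.castSucc + (ang i.succ - ang i.castSucc) * ((1 + y 0) / 2) =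
          ang i.succ := by rw [h]; ring
      rw [h2]
      exact vert_ang ρ l _
  · exact core_end ρ l hP hR (y 0) hy'

/-! ## Two-cells -/

theorem low_sphere2 {y : Fin 2 → ℝ} (hy : y ∈ sphere (0 : Fin 2 → ℝ) 1) :
    (-1 ≤ y 0 ∧ y 0 ≤ 1) ∧ (-1 ≤ y 1 ∧ y 1 ≤ 1) ∧
      (y 0 = -1 ∨ y 0 = 1 ∨ y 1 = -1 ∨ y 1 = 1) := by
  rw [mem_sphere_zero_iff_norm] at hy
  have h1 : ∀ i, |y i| ≤ 1 := by
    intro i
    have := norm_le_pi_norm y i
    rw [hy, Real.norm_eq_abs] at this
    exact this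
  have h2 : ¬ (|y 0| < 1 ∧ |y 1| < 1) := by
    rintro ⟨h, h'⟩
    have : ‖y‖ < 1 := by
      rw [pi_norm_lt_iff zero_lt_one]
      intro i
      fin_cases i
      · exact h
      · exact h'
    linarith
  refine ⟨abs_le.1 (h1 0), abs_le.1 (h1 1), ?_⟩
  by_contra hcon
  push Not at hcon
  obtain ⟨a, b, c, d⟩ := hcon
  apply h2
  constructor
  · rw [abs_lt]
    exact ⟨lt_of_le_of_ne (abs_le.1 (h1 0)).1 (Ne.symm a), lt_of_le_of_ne (abs_le.1 (h1 0)).2 b⟩
  · rw [abs_lt]
    exact ⟨lt_of_le_of_ne (abs_le.1 (h1 1)).1 (Ne.symm c), lt_of_le_of_ne (abs_le.1 (h1 1)).2 d⟩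

/-- segments on the three upper sheets -/
theorem seg_mem (ρ l : ℝ) (i : Fin 3) (j : Fin 3) (τ : ℝ) (h0 : 0 ≤ τ) (h1 : τ ≤ 1) :
    onSheet i.castSucc (τ • ev j) ∈ Low ρ l 2 := by
  have := mem_low (ρ := ρ) (l := l) one_lt_two (Sum.inr (Sum.inl (i, j)) : CI 1)
    (cb1 (s := 2 * τ - 1) (by linarith) (by linarith))
  have h2 : CPhi ρ l 1 (Sum.inr (Sum.inl (i, j)) : CI 1) (fun _ => 2 * τ - 1) =
      onSheet i.castSucc (τ • ev j) := by
    show onSheet i.castSucc (((1 + (2 * τ - 1)) / 2) • ev j) = _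
    congr 2
    ring
  rw [← h2]
  exact this

/-- segments on the floor -/
theorem segf_mem (ρ l : ℝ) (hρ : ρ ≤ 1 / 100) (j : Fin 3) (τ : ℝ) (h0 : 2 * ρ ≤ τ) (h1 : τ ≤ 1) :
    onSheet 3 (τ • ev j) ∈ Low ρ l 2 := by
  have hd : 0 < 1 - 2 * ρ := by linarith
  have h3 : 0 ≤ (τ - 2 * ρ) / (1 - 2 * ρ) := div_nonneg (by linarith) hd.le
  have h4 : (τ - 2 * ρ) / (1 - 2 * ρ) ≤ 1 := by rw [div_le_one hd]; linarith
  have := mem_low (ρ := ρ) (l := l) one_lt_two (Sum.inr (Sum.inr (Sum.inl j)) : CI 1)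
    (cb1 (s := 2 * ((τ - 2 * ρ) / (1 - 2 * ρ)) - 1) (by linarith) (by linarith))
  have h2 : CPhi ρ l 1 (Sum.inr (Sum.inr (Sum.inl j)) : CI 1)
      (fun _ => 2 * ((τ - 2 * ρ) / (1 - 2 * ρ)) - 1) = onSheet 3 (τ • ev j) := by
    show onSheet 3 ((2 * ρ + (1 - 2 * ρ) *
      ((1 + (2 * ((τ - 2 * ρ) / (1 - 2 * ρ)) - 1)) / 2)) • ev j) = _
    congr 2
    field_simp
    ring
  rw [← h2]
  exact this

/-- the closed arcs of the circle -/
theorem arc_mem (ρ l : ℝ) (i : Fin 5) (θ : ℝ) (h0 : ang i.castSucc ≤ θ) (h1 : θ ≤ ang i.succ)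
    (h01 : ang i.castSucc < ang i.succ) : circ ρ θ ∈ Low ρ l 2 := by
  have hd : 0 < ang i.succ - ang i.castSucc := by linarith
  have h3 : 0 ≤ (θ - ang i.castSucc) / (ang i.succ - ang i.castSucc) :=
    div_nonneg (by linarith) hd.le
  have h4 : (θ - ang i.castSucc) / (ang i.succ - ang i.castSucc) ≤ 1 := by
    rw [div_le_one hd]; linarith
  have := mem_low (ρ := ρ) (l := l) one_lt_two (Sum.inr (Sum.inr (Sum.inr (Sum.inl i))) : CI 1)
    (cb1 (s := 2 * ((θ - ang i.castSucc) / (ang i.succ - ang i.castSucc)) - 1)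
      (by linarith) (by linarith))
  have h2 : CPhi ρ l 1 (Sum.inr (Sum.inr (Sum.inr (Sum.inl i))) : CI 1)
      (fun _ => 2 * ((θ - ang i.castSucc) / (ang i.succ - ang i.castSucc)) - 1) = circ ρ θ := by
    show circ ρ (ang i.castSucc + (ang i.succ - ang i.castSucc) *
      ((1 + (2 * ((θ - ang i.castSucc) / (ang i.succ - ang i.castSucc)) - 1)) / 2)) = _
    congr 1
    field_simp
    ring
  rw [← h2]
  exact this

theorem circ_mem (ρ l : ℝ) (θ : ℝ) (h0 : 0 ≤ θ) (h1 : θ ≤ 2 * Real.pi) :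
    circ ρ θ ∈ Low ρ l 2 := by
  have hpi := Real.pi_pos
  have a0 : ang (Fin.castSucc (0 : Fin 5)) = 0 := rfl
  have a1 : ang (Fin.succ (0 : Fin 5)) = Real.pi / 2 := rfl
  have a1' : ang (Fin.castSucc (1 : Fin 5)) = Real.pi / 2 := rfl
  have a2 : ang (Fin.succ (1 : Fin 5)) = Real.pi := rfl
  have a2' : ang (Fin.castSucc (2 : Fin 5)) = Real.pi := rfl
  have a3 : ang (Fin.succ (2 : Fin 5)) = 7 * Real.pi / 6 := rfl
  have a3' : ang (Fin.castSucc (3 : Fin 5)) = 7 * Real.pi / 6 := rfl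
  have a4 : ang (Fin.succ (3 : Fin 5)) = 11 * Real.pi / 6 := rfl
  have a4' : ang (Fin.castSucc (4 : Fin 5)) = 11 * Real.pi / 6 := rfl
  have a5 : ang (Fin.succ (4 : Fin 5)) = 2 * Real.pi := rfl
  rcases le_total θ (Real.pi / 2) with h | h
  · exact arc_mem ρ l 0 θ (by rw [a0]; exact h0) (by rw [a1]; exact h) (by rw [a0, a1]; linarith)
  rcases le_total θ Real.pi with h' | h'
  · exact arc_mem ρ l 1 θ (by rw [a1']; exact h) (by rw [a2]; exact h')
      (by rw [a1', a2]; linarith)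
  rcases le_total θ (7 * Real.pi / 6) with h'' | h''
  · exact arc_mem ρ l 2 θ (by rw [a2']; exact h') (by rw [a3]; exact h'')
      (by rw [a2', a3]; linarith)
  rcases le_total θ (11 * Real.pi / 6) with h3 | h3
  · exact arc_mem ρ l 3 θ (by rw [a3']; exact h'') (by rw [a4]; exact h3)
      (by rw [a3', a4]; linarith)
  · exact arc_mem ρ l 4 θ (by rw [a4']; exact h3) (by rw [a5]; exact h1)
      (by rw [a4', a5]; linarith)

theorem exists_angle (a b : ℝ) (h : a ^ 2 + b ^ 2 = 1) :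
    ∃ θ : ℝ, 0 ≤ θ ∧ θ ≤ 2 * Real.pi ∧ Real.cos θ = a ∧ Real.sin θ = b := by
  have hn : ‖(⟨a, b⟩ : ℂ)‖ = 1 := by
    rw [Complex.norm_def, Complex.normSq_mk, Real.sqrt_eq_one]
    linarith
  obtain ⟨θ, hθ⟩ := (Complex.norm_eq_one_iff _).1 hn
  have hper : Function.Periodic (fun x : ℝ => (Real.cos x, Real.sin x)) (2 * Real.pi) := by
    intro x
    simp
  obtain ⟨φ, ⟨h1, h2⟩, h3⟩ := hper.exists_mem_Ico₀ Real.two_pi_pos θ
  simp only [Prod.mk.injEq] at h3
  refine ⟨φ, h1, h2.le, ?_, ?_⟩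
  · rw [← h3.1, ← Complex.exp_ofReal_mul_I_re, hθ]
  · rw [← h3.2, ← Complex.exp_ofReal_mul_I_im, hθ]

/-- points of the floor sheet on the circle -/
theorem circle_mem (ρ l : ℝ) (hρ : 0 < ρ) (x : E3) (hx : nn x = 4 * ρ ^ 2) :
    onSheet 3 x ∈ Low ρ l 2 := by
  obtain ⟨θ, h1, h2, h3, h4⟩ := exists_angle (x 0 / (2 * ρ)) (x 1 / (2 * ρ)) (by
    field_simp
    unfold nn at hx
    linarith)
  have h5 : onSheet 3 x = circ ρ θ := by
    unfold circ
    apply onSheet_congr
    · rw [pl0, h3]; field_simp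
    · rw [pl1, h4]; field_simp
  rw [h5]
  exact circ_mem ρ l θ h1 h2

/-- wedge of the inner sheet over `β = 0, 1` is the wedge of the outer sheet -/
theorem wedge_inner0 (hA : ArcStatement) (ρ l : ℝ) (hP : Par ρ l) (k : Fin 3) (o : Bool) (s : ℝ) :
    wedge ρ o k 0 s = wedge ρ true k 0 s := by
  cases o
  · obtain ⟨-, ⟨ha, -⟩, hA3⟩ := hA
    obtain ⟨-, -, -, ⟨hf, -⟩, -⟩ := hA3 ρ hP.hρ hP.hρ'
    have hq : ∀ ε σ : ℝ, qW ε 0 σ = -3 + 12 * σ - 4 * σ ^ 2 := by
      intro ε σ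
      simp [qW]
    simp only [wedge, hq, hf, Bool.false_eq_true, if_false, ← ha, if_true, ite_self]
  · rfl

theorem wedge_inner1 (hA : ArcStatement) (ρ l : ℝ) (hP : Par ρ l) (k : Fin 3) (o : Bool) (s : ℝ) :
    wedge ρ o k 1 s = wedge ρ true k 1 s := by
  cases o
  · obtain ⟨-, ⟨-, ha⟩, hA3⟩ := hA
    obtain ⟨-, -, -, ⟨-, hf⟩, -⟩ := hA3 ρ hP.hρ hP.hρ'
    have hq : ∀ ε σ : ℝ, qW ε 1 σ = -3 + 12 * σ - 4 * σ ^ 2 := by
      intro ε σ
      simp [qW]
    simp only [wedge, hq, hf, Bool.false_eq_true, if_false, ← ha, if_true, ite_self]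
  · rfl

theorem wedge_side (hA : ArcStatement) (ρ l : ℝ) (hP : Par ρ l) (k : Fin 3) (o : Bool) (d : Bool)
    (s : ℝ) (h1 : -1 ≤ s) (h2 : s ≤ 1) : wedge ρ o k (if d then 1 else 0) s ∈ Low ρ l 2 := by
  have h3 : wedge ρ o k (if d then 1 else 0) s = wedge ρ true k (if d then 1 else 0) s := by
    cases d
    · exact wedge_inner0 hA ρ l hP k o s
    · exact wedge_inner1 hA ρ l hP k o s
  have h4 : CPhi ρ l 1 (Sum.inl (k, d) : CI 1) (fun _ => s) =
      wedge ρ true k (if d then 1 else 0) s := rfl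
  have h5 := mem_low (ρ := ρ) (l := l) one_lt_two (Sum.inl (k, d) : CI 1) (cb1 h1 h2)
  rw [h3, ← h4]
  exact h5

/-- the far ends of the wedge -/
theorem wedge_far (hK : KiteStatement) (hA : ArcStatement) (ρ l : ℝ) (hP : Par ρ l) (k : Fin 3)
    (o : Bool) (β : ℝ) (h0 : 0 ≤ β) (h1 : β ≤ 1) (s : ℝ) (hs : s = -1 ∨ s = 1) :
    wedge ρ o k β s ∈ Low ρ l 2 := by
  obtain ⟨j, τ, hτ0, hτ1, e0, e1⟩ := far_seg hK k β h0 h1
  have hK' := hK
  obtain ⟨-, -, -, hk4, -, hk6, -⟩ := hK'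
  obtain ⟨hf1, hf2⟩ := hk6 β h0 h1
  obtain ⟨hq1, hq2⟩ := hk4 k β (far β) (by linarith)
  have habs : |s| = 1 := by rcases hs with h | h <;> rw [h] <;> norm_num
  cases o
  · rcases hs with h | h
    · -- floor
      obtain ⟨-, -, hA3⟩ := hA
      obtain ⟨-, -, hA5, -, hA6⟩ := hA3 ρ hP.hρ hP.hρ'
      obtain ⟨hc1, hc2⟩ := hA5 β h0 h1
      obtain ⟨-, -, hA8, hA9⟩ := hA6 k β (farC ρ β) h0 h1 (by linarith) hc2
      obtain ⟨-, hq3⟩ := hk4 k β (farC ρ β) (by linarith)
      have hw : wedge ρ false k β s = onSheet 3 (kp k β (farC ρ β)) := by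
        have hs0 : s < 0 := by rw [h]; norm_num
        simp only [wedge, habs, hs0, and_self, if_true, one_mul, Bool.false_eq_true, if_false,
          onSheet, sheet, hq3]
        rw [add_sub_cancel]
        simp
      rw [hw]
      rcases eq_or_lt_of_le hc2 with he | he
      · rw [he]
        have hn := hA9 rfl
        rw [he] at hn
        have h5 : onSheet 3 (kp k β (far β)) = onSheet 3 (τ • ev j) := onSheet_congr 3 e0 e1
        rw [h5]
        rw [nn_congr e0 e1, nn_ev] at hn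
        have hρ := hP.hρ
        exact segf_mem ρ l hP.hρ' j τ (by nlinarith) hτ1
      · exact circle_mem ρ l hP.hρ _ (hA8 rfl he)
    · have hw : wedge ρ false k β s = onSheet 2 (kp k β (far β)) := by
        have hs0 : ¬ s < 0 := by rw [h]; norm_num
        simp only [wedge, habs, hs0, and_false, if_false, one_mul, Bool.false_eq_true,
          onSheet, sheet, hq2]
        rw [add_sub_cancel]
      rw [hw, onSheet_congr 2 e0 e1]
      exact seg_mem ρ l 2 j τ hτ0 hτ1
  · rcases hs with h | h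
    · have hw : wedge ρ true k β s = onSheet 1 (kp k β (far β)) := by
        have hs0 : s < 0 := by rw [h]; norm_num
        simp only [wedge, habs, hs0, if_true, one_mul, onSheet, sheet, hq1]
        simp
      rw [hw, onSheet_congr 1 e0 e1]
      exact seg_mem ρ l 1 j τ hτ0 hτ1
    · have hw : wedge ρ true k β s = onSheet 0 (kp k β (far β)) := by
        have hs0 : ¬ s < 0 := by rw [h]; norm_num
        simp only [wedge, habs, hs0, if_true, if_false, one_mul, onSheet, sheet, hq1]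
        simp
      rw [hw, onSheet_congr 0 e0 e1]
      exact seg_mem ρ l 0 j τ hτ0 hτ1

/-- the core cell over `b = ±1` -/
theorem core_far (hR : FloorRegStatement) (ρ l : ℝ) (hP : Par ρ l) (a b : ℝ)
    (hb : b = -1 ∨ b = 1) : coreCell ρ l a b ∈ Low ρ l 2 := by
  have hl := hP.hl
  have hl' := hP.hl'
  have hρ := hP.hρ
  have hb2 : b ^ 2 = 1 := by rcases hb with h | h <;> rw [h] <;> norm_num
  unfold coreCell
  set u := Real.pi * (1 + a) / 2 with hu
  set t := -Real.cos (3 * u) + b * √((2 * ρ / l) ^ 2 - Real.sin (3 * u) ^ 2) with ht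
  have hpos : 0 ≤ (2 * ρ / l) ^ 2 - Real.sin (3 * u) ^ 2 := by
    have h1 : Real.sin (3 * u) ^ 2 ≤ 1 := Real.sin_sq_le_one _
    have h2 : 1 ≤ 2 * ρ / l := by
      rw [le_div_iff₀ hl]; linarith
    nlinarith
  have hn : nn (floorX ρ l !₂[u, t]) = 4 * ρ ^ 2 := by
    obtain ⟨-, -, -, -, -, h6⟩ := hR ρ l hP
    rw [h6]
    show l ^ 2 * (t ^ 2 + 2 * t * Real.cos (3 * u) + 1) = 4 * ρ ^ 2
    have h7 : (t + Real.cos (3 * u)) ^ 2 = (2 * ρ / l) ^ 2 - Real.sin (3 * u) ^ 2 := by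
      have : t + Real.cos (3 * u) = b * √((2 * ρ / l) ^ 2 - Real.sin (3 * u) ^ 2) := by
        rw [ht]; ring
      rw [this, mul_pow, Real.sq_sqrt hpos, hb2, one_mul]
    have h8 := Real.sin_sq_add_cos_sq (3 * u)
    have h9 : t ^ 2 + 2 * t * Real.cos (3 * u) + 1 = (2 * ρ / l) ^ 2 := by
      linear_combination h7 - h8
    rw [h9]
    field_simp
    ring
  rw [floor_circ ρ l hP hR _ hn]
  exact circle_mem ρ l hρ _ hn

theorem core_arc (ρ l b : ℝ) (h1 : -1 ≤ b) (h2 : b ≤ 1) :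
    floorP ρ l !₂[0, -1 + b * (2 * ρ / l)] ∈ Low ρ l 2 := by
  have h4 : CPhi ρ l 1 (Sum.inr (Sum.inr (Sum.inr (Sum.inr ()))) : CI 1) (fun _ => b) =
      floorP ρ l !₂[0, -1 + b * (2 * ρ / l)] := rfl
  have h5 := mem_low (ρ := ρ) (l := l) one_lt_two
    (Sum.inr (Sum.inr (Sum.inr (Sum.inr ()))) : CI 1) (cb1 h1 h2)
  rw [← h4]
  exact h5

theorem core_side (hI : FloorInjStatement) (ρ l : ℝ) (hP : Par ρ l) (a b : ℝ)
    (ha : a = -1 ∨ a = 1) (h1 : -1 ≤ b) (h2 : b ≤ 1) : coreCell ρ l a b ∈ Low ρ l 2 := by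
  have hl := hP.hl
  have hρ := hP.hρ
  have hsq : √((2 * ρ / l) ^ 2) = 2 * ρ / l := Real.sqrt_sq (by positivity)
  rcases ha with h | h
  · have hc : coreCell ρ l a b = floorP ρ l !₂[0, -1 + b * (2 * ρ / l)] := by
      unfold coreCell
      have h3 : Real.pi * (1 + a) / 2 = 0 := by rw [h]; ring
      rw [h3]
      simp only [mul_zero, Real.cos_zero, Real.sin_zero, ne_eq, OfNat.ofNat_ne_zero,
        not_false_eq_true, zero_pow, sub_zero, hsq]
    rw [hc]
    exact core_arc ρ l b h1 h2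
  · have hc : coreCell ρ l a b = floorP ρ l !₂[0, -1 + (-b) * (2 * ρ / l)] := by
      unfold coreCell
      have h3 : Real.pi * (1 + a) / 2 = Real.pi := by rw [h]; ring
      rw [h3]
      have h4 : Real.cos (3 * Real.pi) = -1 := by
        rw [show 3 * Real.pi = Real.pi + 2 * Real.pi by ring, Real.cos_add_two_pi, Real.cos_pi]
      have h5 : Real.sin (3 * Real.pi) = 0 := by
        rw [show 3 * Real.pi = Real.pi + 2 * Real.pi by ring, Real.sin_add_two_pi, Real.sin_pi]
      rw [h4, h5]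
      simp only [neg_neg, ne_eq, OfNat.ofNat_ne_zero, not_false_eq_true, zero_pow, sub_zero, hsq]
      apply (hI ρ l hP).2
      refine ⟨-1, ?_, ?_⟩
      · show (0:ℝ) = Real.pi + ((-1 : ℤ) : ℝ) * Real.pi
        push_cast
        ring
      · show -1 + -b * (2 * ρ / l) = (-1) ^ (-1 : ℤ) * (1 + b * (2 * ρ / l))
        norm_num
        ring
    rw [hc]
    exact core_arc ρ l (-b) (by linarith) (by linarith)

theorem bdry2 (hK : KiteStatement) (hA : ArcStatement) (hR : FloorRegStatement)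
    (hI : FloorInjStatement) (ρ l : ℝ) (hP : Par ρ l) (i : CI 2) (y : Fin 2 → ℝ)
    (hy : y ∈ sphere (0 : Fin 2 → ℝ) 1) : CPhi ρ l 2 i y ∈ Low ρ l 2 := by
  obtain ⟨⟨a1, a2⟩, ⟨b1, b2⟩, hc⟩ := low_sphere2 hy
  rcases i with ⟨o, k⟩ | u
  · show wedge ρ o k ((1 + y 0) / 2) (y 1) ∈ Low ρ l 2
    rcases hc with h | h | h | h
    · have h3 : (1 + y 0) / 2 = if false then 1 else 0 := by rw [h]; norm_num
      rw [h3]
      exact wedge_side hA ρ l hP k o false (y 1) b1 b2
    · have h3 : (1 + y 0) / 2 = if true then 1 else 0 := by rw [h]; norm_num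
      rw [h3]
      exact wedge_side hA ρ l hP k o true (y 1) b1 b2
    · exact wedge_far hK hA ρ l hP k o _ (by linarith) (by linarith) _ (Or.inl h)
    · exact wedge_far hK hA ρ l hP k o _ (by linarith) (by linarith) _ (Or.inr h)
  · show coreCell ρ l (y 0) (y 1) ∈ Low ρ l 2
    rcases hc with h | h | h | h
    · exact core_side hI ρ l hP _ _ (Or.inl h) b1 b2
    · exact core_side hI ρ l hP _ _ (Or.inr h) b1 b2
    · exact core_far hR ρ l hP _ _ (Or.inl h)
    · exact core_far hR ρ l hP _ _ (Or.inr h)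

/-- Module CWBDRY. -/
theorem cwBdry (hK : KiteStatement) (hA : ArcStatement) (hR : FloorRegStatement)
    (hI : FloorInjStatement) : CWBdryStatement := by
  intro ρ l hP n i y hy
  match n, i, y, hy with
  | 0, i, y, hy =>
    exfalso
    rw [mem_sphere_zero_iff_norm] at hy
    have : y = 0 := Subsingleton.elim _ _
    rw [this, norm_zero] at hy
    exact zero_ne_one hy
  | 1, i, y, hy => exact bdry1 hK hR ρ l hP i y hy
  | 2, i, y, hy => exact bdry2 hK hA hR hI ρ l hP i y hy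
  | n + 3, i, y, hy => exact (i : Empty).elim

end Pool.Agent.Tight.H99
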