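import Pool.Agent.Lib.MP_a31e1e_gt.Interfaces

/-!
# Module ZMAP of project TIGHT

For a smooth function `F` put `g = ∇F`, `V = |g|² g`.  Taylor's formula with integral remainder gives
`F(x + z V) = F(x) + |g|⁴ (z + z² J(x,z))`, `J(x,z) = ∫₀¹ (1-t) D²F(x + t z V)(g,g) dt`, and `J` is
smooth.  The equation `z + z² J(x,z) = γ` is solved near `z = 0` by the inverse function theorem.
-/

open scoped ContDiff Topology
open Set Metric MeasureTheory

namespace Pool.Agent.Tight.H99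

/-- A parametric integral of a smooth function is smooth. -/
theorem contDiff_paramInt {E : Type} [NormedAddCommGroup E] [NormedSpace ℝ E]
    (H : E × ℝ → ℝ) (hH : ContDiff ℝ ∞ H) :
    ContDiff ℝ ∞ (fun x : E => ∫ t in (0:ℝ)..1, H (x, t)) := by
  let b : ContDiffBump (0:ℝ) := ⟨1, 2, one_pos, one_lt_two⟩
  let g : E → ℝ → ℝ := fun x s => b s * H (x, -s)
  let f : ℝ → ℝ := indicator (Ioc 0 1) (fun _ => 1)
  have hf : LocallyIntegrable f volume := by
    apply Integrable.locallyIntegrable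
    apply (integrable_indicator_iff measurableSet_Ioc).2
    exact integrableOn_const (by simp) (by simp)
  have hg : ContDiffOn ℝ ((⊤ : ℕ∞) : WithTop ℕ∞) ↿g (univ ×ˢ univ) := by
    apply ContDiff.contDiffOn
    have h1 : ContDiff ℝ ∞ (fun q : E × ℝ => b q.2) := b.contDiff.comp contDiff_snd
    have h2 : ContDiff ℝ ∞ (fun q : E × ℝ => H (q.1, -q.2)) :=
      hH.comp (contDiff_fst.prodMk contDiff_snd.neg)
    exact h1.mul h2
  have h := contDiffOn_convolution_right_with_param_comp (n := ⊤) (μ := (volume : Measure ℝ))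
    (ContinuousLinearMap.mul ℝ ℝ) (s := univ) (v := fun _ : E => (0:ℝ)) contDiffOn_const
    (f := f) (g := g) (k := closedBall 0 2) isOpen_univ (isCompact_closedBall 0 2)
    (by
      intro p x _ hx
      have : b x = 0 := by
        apply b.zero_of_le_dist
        simp only [mem_closedBall, not_le] at hx
        exact hx.le
      simp only [g, this, zero_mul]) hf hg
  rw [contDiffOn_univ] at h
  convert h using 1
  funext x
  rw [intervalIntegral.integral_of_le zero_le_one, ← integral_indicator measurableSet_Ioc]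
  rw [convolution_def]
  apply integral_congr_ae
  apply Filter.Eventually.of_forall
  intro t
  by_cases ht : t ∈ Ioc (0:ℝ) 1
  · have hb : b (0 - t) = 1 := by
      apply b.one_of_mem_closedBall
      simp only [mem_closedBall, zero_sub, dist_zero_right, norm_neg, Real.norm_eq_abs]
      rw [abs_of_pos ht.1]
      exact ht.2
    rw [zero_sub] at hb
    simp only [indicator_of_mem ht, f, g, ContinuousLinearMap.mul_apply', hb, one_mul, zero_sub,
      neg_neg]
  · simp only [indicator_of_notMem ht, f, ContinuousLinearMap.mul_apply', zero_mul]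

/-- Taylor's formula with integral remainder. -/
theorem taylor_two (F : E3 → ℝ) (hF : ContDiff ℝ ∞ F) (x v : E3) :
    F (x + v) = F x + fderiv ℝ F x v +
      ∫ t in (0:ℝ)..1, (1 - t) * D2 F (x + t • v) v v := by
  have hF1 : Differentiable ℝ F := hF.differentiable (by simp)
  have hF2 : ContDiff ℝ ∞ (fderiv ℝ F) := hF.fderiv_right (by simp)
  have hF3 : Differentiable ℝ (fderiv ℝ F) := hF2.differentiable (by simp)
  have hF4 : ContDiff ℝ ∞ (fderiv ℝ (fderiv ℝ F)) := hF2.fderiv_right (by simp)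
  have hl : ∀ t : ℝ, HasDerivAt (fun t : ℝ => x + t • v) v t := by
    intro t
    have := ((hasDerivAt_id t).smul_const v).const_add x
    simpa using this
  have h1 : ∀ t : ℝ, HasDerivAt (fun t : ℝ => F (x + t • v)) (fderiv ℝ F (x + t • v) v) t := by
    intro t
    exact (hF1 (x + t • v)).hasFDerivAt.comp_hasDerivAt t (hl t)
  have h2 : ∀ t : ℝ, HasDerivAt (fun t : ℝ => fderiv ℝ F (x + t • v) v)
      (D2 F (x + t • v) v v) t := by
    intro t
    have h3 := (hF3 (x + t • v)).hasFDerivAt.comp_hasDerivAt t (hl t)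
    have h4 := h3.clm_apply (hasDerivAt_const t v)
    simpa [D2] using h4
  have h5 : ∀ t : ℝ, HasDerivAt (fun t : ℝ => (1 - t) * fderiv ℝ F (x + t • v) v + F (x + t • v))
      ((1 - t) * D2 F (x + t • v) v v) t := by
    intro t
    have h6 : HasDerivAt
        (fun t : ℝ => (1 - t) * fderiv ℝ F (x + t • v) v + F (x + t • v))
        (-1 * fderiv ℝ F (x + t • v) v + (1 - t) * D2 F (x + t • v) v v +
          fderiv ℝ F (x + t • v) v) t := (((hasDerivAt_id t).const_sub 1).mul (h2 t)).add (h1 t)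
    have h7 : (-1 * fderiv ℝ F (x + t • v) v + (1 - t) * D2 F (x + t • v) v v +
          fderiv ℝ F (x + t • v) v) = (1 - t) * D2 F (x + t • v) v v := by ring
    rw [h7] at h6
    exact h6
  have hcont : Continuous (fun t : ℝ => (1 - t) * D2 F (x + t • v) v v) := by
    have : Continuous (fun t : ℝ => fderiv ℝ (fderiv ℝ F) (x + t • v)) :=
      hF4.continuous.comp (by fun_prop)
    unfold D2
    fun_prop
  rw [intervalIntegral.integral_eq_sub_of_hasDerivAt (fun t _ => h5 t)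
    (hcont.intervalIntegrable 0 1)]
  simp
  ring

/-- The gradient, written with the standard basis. -/
noncomputable def grd (F : E3 → ℝ) (x : E3) : E3 :=
  ∑ i : Fin 3, (fderiv ℝ F x (EuclideanSpace.single i 1)) • EuclideanSpace.single i (1:ℝ)

theorem fderiv_grd (F : E3 → ℝ) (x : E3) : fderiv ℝ F x (grd F x) = gradSq F x := by
  simp only [grd, gradSq, map_sum, map_smul, smul_eq_mul, pow_two]

theorem contDiff_grd (F : E3 → ℝ) (hF : ContDiff ℝ ∞ F) : ContDiff ℝ ∞ (grd F) := by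
  have hF2 : ContDiff ℝ ∞ (fderiv ℝ F) := hF.fderiv_right (by simp)
  unfold grd
  apply ContDiff.sum
  intro i _
  exact (hF2.clm_apply contDiff_const).smul contDiff_const

theorem contDiff_gradSq (F : E3 → ℝ) (hF : ContDiff ℝ ∞ F) : ContDiff ℝ ∞ (gradSq F) := by
  have hF2 : ContDiff ℝ ∞ (fderiv ℝ F) := hF.fderiv_right (by simp)
  unfold gradSq
  apply ContDiff.sum
  intro i _
  exact (hF2.clm_apply contDiff_const).pow 2

/-- The field `V = |∇F|² ∇F`. -/
noncomputable def VV (F : E3 → ℝ) (x : E3) : E3 := gradSq F x • grd F x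

/-- The remainder. -/
noncomputable def JJ (F : E3 → ℝ) (p : E3 × ℝ) : ℝ :=
  ∫ t in (0:ℝ)..1, (1 - t) * D2 F (p.1 + t • (p.2 • VV F p.1)) (grd F p.1) (grd F p.1)

theorem contDiff_JJ (F : E3 → ℝ) (hF : ContDiff ℝ ∞ F) : ContDiff ℝ ∞ (JJ F) := by
  have hF2 : ContDiff ℝ ∞ (fderiv ℝ F) := hF.fderiv_right (by simp)
  have hF4 : ContDiff ℝ ∞ (fderiv ℝ (fderiv ℝ F)) := hF2.fderiv_right (by simp)
  have hg := contDiff_grd F hF
  have hs := contDiff_gradSq F hF
  have hV : ContDiff ℝ ∞ (VV F) := hs.smul hg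
  apply contDiff_paramInt (fun q : (E3 × ℝ) × ℝ =>
    (1 - q.2) * D2 F (q.1.1 + q.2 • (q.1.2 • VV F q.1.1)) (grd F q.1.1) (grd F q.1.1))
  have h1 : ContDiff ℝ ∞ (fun q : (E3 × ℝ) × ℝ => q.1.1) := contDiff_fst.comp contDiff_fst
  have h2 : ContDiff ℝ ∞ (fun q : (E3 × ℝ) × ℝ => q.1.2) := contDiff_snd.comp contDiff_fst
  have h3 : ContDiff ℝ ∞ (fun q : (E3 × ℝ) × ℝ => q.2) := contDiff_snd
  have h4 : ContDiff ℝ ∞ (fun q : (E3 × ℝ) × ℝ => q.1.1 + q.2 • (q.1.2 • VV F q.1.1)) :=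
    h1.add (h3.smul (h2.smul (hV.comp h1)))
  have h5 : ContDiff ℝ ∞ (fun q : (E3 × ℝ) × ℝ =>
      fderiv ℝ (fderiv ℝ F) (q.1.1 + q.2 • (q.1.2 • VV F q.1.1))) := hF4.comp h4
  have h6 : ContDiff ℝ ∞ (fun q : (E3 × ℝ) × ℝ => grd F q.1.1) := hg.comp h1
  exact (contDiff_const.sub h3).mul ((h5.clm_apply h6).clm_apply h6)

theorem expansion (F : E3 → ℝ) (hF : ContDiff ℝ ∞ F) (x : E3) (z : ℝ) :
    F (x + z • VV F x) = F x + gradSq F x ^ 2 * (z + z ^ 2 * JJ F (x, z)) := by
  rw [taylor_two F hF x (z • VV F x)]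
  have h1 : ∀ t : ℝ, (1 - t) * D2 F (x + t • (z • VV F x)) (z • VV F x) (z • VV F x) =
      (gradSq F x ^ 2 * z ^ 2) *
        ((1 - t) * D2 F (x + t • (z • VV F x)) (grd F x) (grd F x)) := by
    intro t
    generalize x + t • (z • VV F x) = y
    simp only [D2, VV, map_smul, smul_apply, smul_eq_mul]
    ring
  simp only [h1]
  rw [intervalIntegral.integral_const_mul]
  have h2 : fderiv ℝ F x (z • VV F x) = z * gradSq F x ^ 2 := by
    simp only [VV, map_smul, smul_eq_mul, fderiv_grd]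
    ring
  rw [h2]
  simp only [JJ]
  ring

/-- Solving `A(x,z) = γ` near `z = 0`. -/
theorem solve (A : E3 × ℝ → ℝ) (hA : ContDiff ℝ ∞ A) (hA0 : ∀ x, A (x, 0) = 0)
    (hA1 : ∀ x, fderiv ℝ A (x, 0) (0, 1) = 1) (K : Set E3) (hK : IsCompact K) :
    ∃ (U : Set (E3 × ℝ)) (ζ : E3 × ℝ → ℝ), IsOpen U ∧ (∀ x ∈ K, (x, (0:ℝ)) ∈ U) ∧
      ContDiffOn ℝ ∞ ζ U ∧ (∀ x, (x, (0:ℝ)) ∈ U → ζ (x, 0) = 0) ∧
      ∀ p ∈ U, A (p.1, ζ p) = p.2 := by
  have hAd : Differentiable ℝ A := hA.differentiable (by simp)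
  have hA2 : ContDiff ℝ ∞ (fderiv ℝ A) := hA.fderiv_right (by simp)
  set P : Set (E3 × ℝ) := {p | 0 < fderiv ℝ A p (0, 1)} with hP
  have hPo : IsOpen P := by
    apply isOpen_lt continuous_const
    exact (hA2.clm_apply contDiff_const).continuous
  have hKP : K ×ˢ {(0:ℝ)} ⊆ P := by
    rintro ⟨x, z⟩ ⟨_, hz⟩
    simp only [mem_singleton_iff] at hz
    subst hz
    simp only [hP, mem_ofPred_eq, hA1, zero_lt_one]
  obtain ⟨u, v, hu, hv, hKu, hv0, huv⟩ := generalized_tube_lemma hK isCompact_singleton hPo hKP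
  obtain ⟨δ, hδ, hδv⟩ := Metric.isOpen_iff.1 hv 0 (hv0 rfl)
  set W : Set (E3 × ℝ) := u ×ˢ ball (0:ℝ) δ with hW
  have hWo : IsOpen W := hu.prod isOpen_ball
  have hWP : W ⊆ P := (prod_mono_right hδv).trans huv
  let Φ : E3 × ℝ → E3 × ℝ := fun p => (p.1, A p)
  have hΦ : ContDiff ℝ ∞ Φ := contDiff_fst.prodMk hA
  -- strict monotonicity on fibres
  have hmono : ∀ x ∈ u, StrictMonoOn (fun z : ℝ => A (x, z)) (ball (0:ℝ) δ) := by
    intro x hx
    have hd : ∀ z : ℝ, HasDerivAt (fun z : ℝ => A (x, z)) (fderiv ℝ A (x, z) (0, 1)) z := by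
      intro z
      have h1 : HasDerivAt (fun z : ℝ => ((x, z) : E3 × ℝ)) (0, 1) z :=
        (hasDerivAt_const z x).prodMk (hasDerivAt_id z)
      exact (hAd (x, z)).hasFDerivAt.comp_hasDerivAt z h1
    apply strictMonoOn_of_deriv_pos (convex_ball 0 δ)
    · exact (continuous_iff_continuousAt.2 fun z => (hd z).continuousAt).continuousOn
    · intro z hz
      rw [isOpen_ball.interior_eq] at hz
      rw [(hd z).deriv]
      exact hWP ⟨hx, hz⟩
  have hinj : InjOn Φ W := by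
    rintro ⟨x, z⟩ ⟨hx, hz⟩ ⟨x', z'⟩ ⟨hx', hz'⟩ h
    simp only [Φ, Prod.mk.injEq] at h
    obtain ⟨h1, h2⟩ := h
    subst h1
    have := (hmono x hx).injOn hz hz' h2
    simp only at this
    rw [this]
  -- the derivative is invertible
  have hinv : ∀ p ∈ W, ∃ L : (E3 × ℝ) ≃L[ℝ] (E3 × ℝ), HasFDerivAt Φ (L : (E3 × ℝ) →L[ℝ] (E3 × ℝ)) p := by
    intro p hp
    have ha : 0 < fderiv ℝ A p (0, 1) := hWP hp
    set a := fderiv ℝ A p (0, 1) with hadef
    have hsplit : ∀ q : E3 × ℝ, fderiv ℝ A p q = fderiv ℝ A p (q.1, 0) + q.2 * a := by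
      intro q
      have h1 : q = (q.1, (0:ℝ)) + q.2 • ((0:E3), (1:ℝ)) := by
        ext <;> simp
      conv_lhs => rw [h1]
      rw [map_add, map_smul, smul_eq_mul]
    let f₁ : (E3 × ℝ) →L[ℝ] (E3 × ℝ) := (ContinuousLinearMap.fst ℝ E3 ℝ).prod (fderiv ℝ A p)
    let f₂ : (E3 × ℝ) →L[ℝ] (E3 × ℝ) := (ContinuousLinearMap.fst ℝ E3 ℝ).prod
      (a⁻¹ • (ContinuousLinearMap.snd ℝ E3 ℝ -
        (fderiv ℝ A p).comp ((ContinuousLinearMap.inl ℝ E3 ℝ).comp
          (ContinuousLinearMap.fst ℝ E3 ℝ))))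
    refine ⟨ContinuousLinearEquiv.equivOfInverse f₁ f₂ ?_ ?_, ?_⟩
    · intro q
      have hq := hsplit q
      ext1
      · simp [f₁, f₂]
      · simp only [f₁, f₂, ContinuousLinearMap.prod_apply, ContinuousLinearMap.coe_fst',
          smul_apply, sub_apply,
          ContinuousLinearMap.coe_snd', ContinuousLinearMap.comp_apply,
          ContinuousLinearMap.inl_apply, smul_eq_mul]
        rw [hq]
        field_simp
        ring
    · intro q
      ext1
      · simp [f₁, f₂]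
      · simp only [f₁, f₂, ContinuousLinearMap.prod_apply, ContinuousLinearMap.coe_fst',
          smul_apply, sub_apply,
          ContinuousLinearMap.coe_snd', ContinuousLinearMap.comp_apply,
          ContinuousLinearMap.inl_apply, smul_eq_mul]
        rw [hsplit]
        simp only
        field_simp
        ring
    · exact hasFDerivAt_fst.prodMk (hAd p).hasFDerivAt
  let Ψ : E3 × ℝ → E3 × ℝ := Function.invFunOn Φ W
  have hΨ : ∀ p ∈ W, Ψ (Φ p) = p := fun p hp => hinj.leftInvOn_invFunOn hp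
  -- local structure of the image
  have hloc : ∀ p ∈ W, Φ '' W ∈ 𝓝 (Φ p) ∧ ContDiffAt ℝ ∞ Ψ (Φ p) := by
    intro p hp
    obtain ⟨L, hL⟩ := hinv p hp
    have hc : ContDiffAt ℝ ∞ Φ p := hΦ.contDiffAt
    have hst := hc.hasStrictFDerivAt' hL (by simp)
    have hright : ∀ᶠ y in 𝓝 (Φ p), Φ (hc.localInverse hL (by simp) y) = y :=
      hst.eventually_right_inverse
    have hci : ContDiffAt ℝ ∞ (hc.localInverse hL (by simp)) (Φ p) := hc.to_localInverse hL (by simp)
    have himg : hc.localInverse hL (by simp) (Φ p) = p := hc.localInverse_apply_image hL (by simp)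
    have hmem : ∀ᶠ y in 𝓝 (Φ p), hc.localInverse hL (by simp) y ∈ W := by
      apply hci.continuousAt
      rw [himg]
      exact hWo.mem_nhds hp
    constructor
    · filter_upwards [hright, hmem] with y h1 h2
      exact ⟨_, h2, h1⟩
    · apply hci.congr_of_eventuallyEq
      filter_upwards [hright, hmem] with y h1 h2
      have := hΨ _ h2
      rw [h1] at this
      exact this
  refine ⟨Φ '' W, fun p => (Ψ p).2, ?_, ?_, ?_, ?_, ?_⟩
  · rw [isOpen_iff_mem_nhds]
    rintro _ ⟨p, hp, rfl⟩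
    exact (hloc p hp).1
  · intro x hx
    refine ⟨(x, 0), ⟨hKu hx, mem_ball_self hδ⟩, ?_⟩
    simp only [Φ, hA0]
  · rintro _ ⟨p, hp, rfl⟩
    exact (contDiff_snd.contDiffAt.comp _ (hloc p hp).2).contDiffWithinAt
  · rintro x ⟨p, hp, hpx⟩
    have h1 : p.1 = x := congrArg Prod.fst hpx
    have h2 : ((x, (0:ℝ)) : E3 × ℝ) ∈ W := by
      refine ⟨?_, mem_ball_self hδ⟩
      have := hp.1
      rw [h1] at this
      exact this
    have h3 : Φ (x, 0) = (x, 0) := by simp only [Φ, hA0]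
    have h4 := hΨ _ h2
    rw [h3] at h4
    show (Ψ (x, 0)).2 = 0
    rw [h4]
  · rintro _ ⟨p, hp, rfl⟩
    simp only [hΨ p hp]
    rfl

theorem zmap : ZmapStatement := by
  intro F G O K hF _ _ _ hK _
  have hJ := contDiff_JJ F hF
  have hV : ContDiff ℝ ∞ (VV F) := (contDiff_gradSq F hF).smul (contDiff_grd F hF)
  let A : E3 × ℝ → ℝ := fun p => p.2 + p.2 ^ 2 * JJ F p
  have hA : ContDiff ℝ ∞ A := contDiff_snd.add ((contDiff_snd.pow 2).mul hJ)
  have hA0 : ∀ x, A (x, 0) = 0 := by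
    intro x
    simp [A]
  have hA1 : ∀ x, fderiv ℝ A (x, 0) (0, 1) = 1 := by
    intro x
    have hAd : Differentiable ℝ A := hA.differentiable (by simp)
    have h1 : HasDerivAt (fun z : ℝ => ((x, z) : E3 × ℝ)) (0, 1) 0 :=
      (hasDerivAt_const 0 x).prodMk (hasDerivAt_id 0)
    have h2 : HasDerivAt (fun z : ℝ => A (x, z)) (fderiv ℝ A (x, 0) (0, 1)) 0 :=
      (hAd (x, 0)).hasFDerivAt.comp_hasDerivAt (0:ℝ) h1
    have hJd : Differentiable ℝ (JJ F) := hJ.differentiable (by simp)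
    have h3 : HasDerivAt (fun z : ℝ => JJ F (x, z)) (fderiv ℝ (JJ F) (x, 0) (0, 1)) 0 :=
      (hJd (x, 0)).hasFDerivAt.comp_hasDerivAt (0:ℝ) h1
    have h4 : HasDerivAt (fun z : ℝ => A (x, z)) 1 0 := by
      have h5 : HasDerivAt (fun z : ℝ => A (x, z)) _ 0 :=
        (hasDerivAt_id (0:ℝ)).add (((hasDerivAt_id (0:ℝ)).pow 2).mul h3)
      simpa using h5
    exact h2.unique h4
  obtain ⟨U, ζ, hU, hKU, hζ, hζ0, hsol⟩ := solve A hA hA0 hA1 K hK
  refine ⟨U, fun p => ζ p • VV F p.1, hU, hKU, ?_, ?_, ?_⟩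
  · exact hζ.smul (hV.comp contDiff_fst).contDiffOn
  · intro x hx
    simp only [hζ0 x hx, zero_smul]
  · intro p hp
    rw [expansion F hF]
    have := hsol p hp
    simp only [A] at this
    rw [this]

end Pool.Agent.Tight.H99
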